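import Mathlib

set_option autoImplicit false
open Filter Topology

namespace Pool.Agent.Results.MP_737f38_pr.ConvexAboveOne

/-- Probability that a sum of independent Bernoulli variables with means `p i` equals `k`. -/
noncomputable def mass {m : ℕ} (p : Fin m → ℝ) (k : ℕ) : ℝ :=
  ∑ S ∈ Finset.univ.powersetCard k, (∏ i ∈ S, p i) * ∏ i ∈ Sᶜ, (1 - p i)

/-- Renyi entropy of order `q` of the Bernoulli sum. -/
noncomputable def renyi (q : ℝ) {m : ℕ} (p : Fin m → ℝ) : ℝ :=
  1 / (1 - q) * Real.log (∑ k ∈ Finset.range (m + 1), mass p k ^ q)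

lemma strict_of_deriv (G k : ℝ → ℝ) (hG : ContDiffAt ℝ 2 G 0)
    (hd : ∀ᶠ s in 𝓝 (0 : ℝ), HasDerivAt G (s * k s) s) (hk : DifferentiableAt ℝ k 0)
    (hpos : 0 < k 0) : ∃ b : ℝ, 0 < b ∧ ∀ b', b' ≤ b → StrictConvexOn ℝ (Set.Icc 0 b') G := by
  obtain ⟨u, hu, hGu⟩ := hG.contDiffOn le_rfl (by simp)
  obtain ⟨U, hUu, hU, h0U⟩ := mem_nhds_iff.1 hu
  have h1 : ContDiffOn ℝ 2 G U := hGu.mono hUu
  have h2 : ContDiffOn ℝ 1 (deriv G) U := h1.deriv_of_isOpen hU (by norm_num)
  have h3 : ContinuousOn (deriv (deriv G)) U := h2.continuousOn_deriv_of_isOpen hU le_rfl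
  have h4 : deriv G =ᶠ[𝓝 0] fun s => s * k s := hd.mono fun s hs => hs.deriv
  have h5 : deriv (deriv G) 0 = k 0 := by
    rw [h4.deriv_eq]
    have := ((hasDerivAt_id' (0 : ℝ)).fun_mul hk.hasDerivAt).deriv
    simpa using this
  have h6 : ∀ᶠ s in 𝓝 (0 : ℝ), 0 < deriv (deriv G) s :=
    (h3.continuousAt (hU.mem_nhds h0U)).eventually (lt_mem_nhds (by rw [h5]; exact hpos))
  obtain ⟨ε, hε, hball⟩ := Metric.eventually_nhds_iff.1 (h6.and (hU.mem_nhds h0U))
  refine ⟨ε / 2, by positivity, fun b' hb' => ?_⟩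
  have hin : ∀ s ∈ Set.Icc 0 b', dist s 0 < ε := by
    intro s hs
    rw [Real.dist_eq, sub_zero, abs_of_nonneg hs.1]
    linarith [hs.2]
  refine strictConvexOn_of_deriv2_pos (convex_Icc _ _)
    (h1.continuousOn.mono fun s hs => (hball (hin s hs)).2) fun s hs => ?_
  exact (hball (hin s (interior_subset hs))).1

lemma mass_two (x y : ℝ) : mass ![x, y] 0 = (1 - x) * (1 - y) ∧
    mass ![x, y] 1 = x * (1 - y) + y * (1 - x) ∧ mass ![x, y] 2 = x * y := by
  have h0 : (Finset.univ : Finset (Fin 2)).powersetCard 0 = {∅} := by decide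
  have h1 : (Finset.univ : Finset (Fin 2)).powersetCard 1 = {{0}, {1}} := by decide
  have h2 : (Finset.univ : Finset (Fin 2)).powersetCard 2 = {Finset.univ} := by decide
  have c0 : ({0} : Finset (Fin 2))ᶜ = {1} := by decide
  have c1 : ({1} : Finset (Fin 2))ᶜ = {0} := by decide
  refine ⟨?_, ?_, ?_⟩
  · simp [mass, h0, Fin.prod_univ_two]
  · rw [mass, h1, Finset.sum_pair (by decide), c0, c1]
    simp
  · simp [mass, h2, Fin.prod_univ_two]

theorem result (q : ℝ) (hq : 1 < q) :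
    ∃ (m : ℕ) (p₀ p₁ : Fin m → ℝ), (∀ i, p₀ i ∈ Set.Icc (0 : ℝ) 1) ∧
      (∀ i, p₁ i ∈ Set.Icc (0 : ℝ) 1) ∧
      StrictConvexOn ℝ (Set.Icc 0 1) fun t : ℝ => renyi q fun i => (1 - t) * p₀ i + t * p₁ i := by
  have hq1 : 0 < q - 1 := by linarith
  set r : ℝ := (1 / 3 : ℝ) ^ (1 / (q - 1)) with hr
  have hr0 : 0 < r := by positivity
  have hr1 : r < 1 := Real.rpow_lt_one (by norm_num) (by norm_num) (by positivity)
  have hrq : r ^ (q - 1) = 1 / 3 := by
    rw [hr, ← Real.rpow_mul (by norm_num), one_div_mul_cancel hq1.ne', Real.rpow_one]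
  set a : ℝ := r / (2 + r) with ha
  have ha0 : 0 < a := by positivity
  have ha1 : a < 1 / 2 := by
    rw [ha, div_lt_iff₀ (by positivity)]
    linarith
  set A : ℝ := (1 - a) ^ 2 with hA
  set B : ℝ := 2 * a * (1 - a) with hB
  set C : ℝ := a ^ 2 with hC
  have hA0 : 0 < A := pow_pos (by linarith) _
  have hB0 : 0 < B := mul_pos (by linarith) (by linarith)
  have hC0 : 0 < C := pow_pos ha0 _
  have hBA : B = r * A := by
    rw [hB, hA, ha]
    field_simp
    ring
  let S : ℝ → ℝ := fun s => (A - s ^ 2) ^ q + (B + 2 * s ^ 2) ^ q + (C - s ^ 2) ^ q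
  let K : ℝ → ℝ := fun s => -2 * q * (A - s ^ 2) ^ (q - 1) + 4 * q * (B + 2 * s ^ 2) ^ (q - 1) -
    2 * q * (C - s ^ 2) ^ (q - 1)
  have hS0 : 0 < S 0 := by
    simp only [S]
    have := Real.rpow_pos_of_pos hA0 q
    have := Real.rpow_pos_of_pos hB0 q
    have := Real.rpow_pos_of_pos hC0 q
    norm_num
    positivity
  have hK0 : K 0 < 0 := by
    simp only [K]
    have h1 := Real.rpow_pos_of_pos hA0 (q - 1)
    have h2 := Real.rpow_pos_of_pos hC0 (q - 1)
    have h3 : B ^ (q - 1) = 1 / 3 * A ^ (q - 1) := by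
      rw [hBA, Real.mul_rpow hr0.le hA0.le, hrq]
    norm_num
    rw [h3]
    nlinarith
  have cd : ∀ (e : ℝ) (n : WithTop ℕ∞), ContDiffAt ℝ n (fun s : ℝ => (A - s ^ 2) ^ e) 0 ∧
      ContDiffAt ℝ n (fun s : ℝ => (B + 2 * s ^ 2) ^ e) 0 ∧
      ContDiffAt ℝ n (fun s : ℝ => (C - s ^ 2) ^ e) 0 := fun e n =>
    ⟨ContDiffAt.rpow_const_of_ne (by fun_prop) (by simpa using hA0.ne'),
      ContDiffAt.rpow_const_of_ne (by fun_prop) (by simpa using hB0.ne'),
      ContDiffAt.rpow_const_of_ne (by fun_prop) (by simpa using hC0.ne')⟩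
  have hS : ContDiffAt ℝ 2 S 0 := ((cd q 2).1.add (cd q 2).2.1).add (cd q 2).2.2
  have hK : ContDiffAt ℝ 2 K 0 :=
    ((contDiffAt_const.mul (cd _ 2).1).add (contDiffAt_const.mul (cd _ 2).2.1)).sub
      (contDiffAt_const.mul (cd _ 2).2.2)
  obtain ⟨b, hb, hconv⟩ := strict_of_deriv (fun s => 1 / (1 - q) * Real.log (S s))
    (fun s => 1 / (1 - q) * (K s / S s)) (contDiffAt_const.mul (hS.log hS0.ne')) (by
      filter_upwards [hS.continuousAt.eventually (lt_mem_nhds hS0)] with s hs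
      have d0 : HasDerivAt (fun s : ℝ => s ^ 2) (2 * s) s := by simpa using hasDerivAt_pow 2 s
      have d1 := (d0.const_sub A).rpow_const (p := q) (Or.inr hq.le)
      have d2 := ((d0.const_mul 2).const_add B).rpow_const (p := q) (Or.inr hq.le)
      have d3 := (d0.const_sub C).rpow_const (p := q) (Or.inr hq.le)
      have d4 : HasDerivAt S (s * K s) s := by
        refine ((d1.fun_add d2).fun_add d3).congr_deriv ?_
        simp only [K]
        ring
      refine ((d4.log hs.ne').const_mul (1 / (1 - q))).congr_deriv ?_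
      ring)
    ((differentiableAt_const _).mul ((hK.differentiableAt (by norm_num)).div
      (hS.differentiableAt (by norm_num)) hS0.ne'))
    (mul_pos_of_neg_of_neg (one_div_neg.2 (by linarith)) (div_neg_of_neg_of_pos hK0 hS0))
  set c := min b a with hc
  have hc0 : 0 < c := lt_min hb ha0
  have hca : c ≤ a := min_le_right _ _
  have hcv := hconv c (min_le_left _ _)
  refine ⟨2, ![a, a], ![a + c, a - c], ?_, ?_, ?_⟩
  · intro i
    fin_cases i <;> exact ⟨ha0.le, by simp; linarith⟩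
  · intro i
    fin_cases i
    · exact ⟨by simp; linarith, by simp; linarith⟩
    · exact ⟨by simp; linarith, by simp; linarith⟩
  · have hf : (fun t : ℝ => renyi q fun i => (1 - t) * (![a, a] : Fin 2 → ℝ) i +
        t * (![a + c, a - c] : Fin 2 → ℝ) i) = fun t => 1 / (1 - q) * Real.log (S (c * t)) := by
      funext t
      have : (fun i => (1 - t) * (![a, a] : Fin 2 → ℝ) i + t * (![a + c, a - c] : Fin 2 → ℝ) i) =
          ![a + c * t, a - c * t] := by
        funext i
        fin_cases i <;> simp <;> ring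
      rw [this, renyi]
      obtain ⟨m0, m1, m2⟩ := mass_two (a + c * t) (a - c * t)
      simp only [Finset.sum_range_succ, Finset.range_zero, Finset.sum_empty, zero_add, m0, m1, m2,
        S, hA, hB, hC]
      congr 5 <;> ring
    rw [hf]
    refine ⟨convex_Icc _ _, fun x hx y hy hxy s t hs ht hst => ?_⟩
    have := hcv.2 (x := c * x) ⟨mul_nonneg hc0.le hx.1, mul_le_of_le_one_right hc0.le hx.2⟩
      (y := c * y) ⟨mul_nonneg hc0.le hy.1, mul_le_of_le_one_right hc0.le hy.2⟩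
      (fun h => hxy (mul_left_cancel₀ hc0.ne' h)) hs ht hst
    simp only [smul_eq_mul] at this ⊢
    convert this using 4
    ring

end Pool.Agent.Results.MP_737f38_pr.ConvexAboveOne
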